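import Pool.Agent.L0h45.AV.Stm3
import Pool.Agent.L0h4.AV.RDX

/-!
# AV.RDXn (helper28): reduction of the integral tuples with positive discriminant (adapted from `L0h4/AV/RDX.lean`)
-/

set_option autoImplicit false
set_option linter.all false

namespace Pool.Agent.L0h28.AV

open Pool.Agent.N874.PP (Tup chA chB gq tau)
open Pool.Agent.L0h45.AV
open Pool.Agent.L0h4.AV

/-- the discriminant in terms of `θ` -/
theorem pos_of_disc (p v θ C S : ℝ) (hv : v ≠ 0)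
    (hD : 0 < 4 * chA (Bp p v θ C S) ^ 3 + 27 * chB (Bp p v θ C S) ^ 2) : 0 < C ^ 2 + S ^ 2 - 9 * θ ^ 2 := by
  have e : 4 * chA (Bp p v θ C S) ^ 3 + 27 * chB (Bp p v θ C S) ^ 2 =
      (C ^ 2 + S ^ 2 - 9 * θ ^ 2) * ((C ^ 2 + S ^ 2) / 4) ^ 2 := by
    rw [chB_Bp _ _ _ _ _ hv, chA_Bp _ _ _ _ _ hv]
    ring
  rw [e] at hD
  by_contra hc
  push Not at hc
  have := mul_nonpos_of_nonpos_of_nonneg hc (sq_nonneg ((C ^ 2 + S ^ 2) / 4))
  linarith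

theorem uniq2n (p v θ C S p' v' θ' C' S' : ℝ) (hv : 0 < v) (hv' : 0 < v')
    (hA : 0 < 4 * chA (Bp p v θ C S) ^ 3 + 27 * chB (Bp p v θ C S) ^ 2) (h : Bp p v θ C S = Bp p' v' θ' C' S') :
    p = p' ∧ v = v' := by
  have hA' : 0 < C' ^ 2 + S' ^ 2 - 9 * θ' ^ 2 := pos_of_disc p' v' θ' C' S' hv'.ne' (h ▸ hA)
  have e1 := rp_Bp' p v p' v' θ' C' S' hv'.ne'
  rw [← h, rp_Bp _ _ _ _ _ hv.ne', mul_zero] at e1
  have e2 := ip_Bp' p v p' v' θ' C' S' hv'.ne'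
  rw [← h, ip_Bp _ _ _ _ _ hv.ne', mul_zero] at e2
  rcases prodz _ _ _ _ v hv e1.symm e2.symm with ⟨h4, h3⟩ | ⟨h4, h3⟩
  · have h5 : p - p' = 0 := by linarith
    have h6 : v ^ 2 = v' ^ 2 := by rw [h5] at h4; linarith
    exact ⟨by linarith, (pow_left_inj₀ hv.le hv'.le two_ne_zero).1 h6⟩
  · exfalso
    have h5 : (3 * θ' + C') * (p - p') = -(S' * v') := by linarith
    have h6 : -((3 * θ' + C') ^ 2 * v ^ 2) + (9 * θ' ^ 2 - C' ^ 2 - S' ^ 2) * v' ^ 2 = 0 := by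
      have h7 : (3 * θ' + C') * ((3 * θ' + C') * ((p - p') ^ 2 - v ^ 2) + 2 * S' * v' * (p - p') +
          (3 * θ' - C') * v' ^ 2) = ((3 * θ' + C') * (p - p')) ^ 2 - (3 * θ' + C') ^ 2 * v ^ 2 +
          2 * S' * v' * ((3 * θ' + C') * (p - p')) + (9 * θ' ^ 2 - C' ^ 2) * v' ^ 2 := by ring
      rw [h4, mul_zero, h5] at h7
      linarith
    have h8 : 0 ≤ (3 * θ' + C') ^ 2 * v ^ 2 := by positivity
    have h9 : 0 < (C' ^ 2 + S' ^ 2 - 9 * θ' ^ 2) * v' ^ 2 := by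
      exact mul_pos hA' (by positivity)
    linarith

theorem uniqn (p v θ C S p' v' θ' C' S' : ℝ) (hv : 0 < v) (hv' : 0 < v')
    (hA : 0 < 4 * chA (Bp p v θ C S) ^ 3 + 27 * chB (Bp p v θ C S) ^ 2) (h : Bp p v θ C S = Bp p' v' θ' C' S') :
    v = v' :=
  (uniq2n p v θ C S p' v' θ' C' S' hv hv' hA h).2

theorem bddn (a b V : ℝ) (hV : 0 < V) : ∃ N : ℝ, ∀ p v θ C S : ℝ, |p| ≤ 1 / 2 → V ≤ v →
    chA (Bp p v θ C S) = a → chB (Bp p v θ C S) = b → 1 ≤ |(Bp p v θ C S).x| →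
    |(Bp p v θ C S).x| ≤ N ∧ |(Bp p v θ C S).y| ≤ N ∧ |(Bp p v θ C S).c| ≤ N ∧ |(Bp p v θ C S).z| ≤ N ∧
      |(Bp p v θ C S).w| ≤ N := by
  -- the bound for `θ`
  set K : ℝ := 1 + |a| + |b| with hK
  have ha0 := abs_nonneg a
  have hK1 : 1 ≤ K := by have := abs_nonneg b; linarith
  set L : ℝ := 4 * |a| + 12 * K ^ 2 + 1 with hL
  have hLK : K ≤ L := by nlinarith
  set M : ℝ := L + L + 1 with hM
  set Q : Set (ℝ × ℝ × ℝ × ℝ × ℝ) := Set.Icc (-1, V, -L, -L, -L) (1, M, L, L, L) with hQ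
  have hQc : IsCompact Q := isCompact_Icc
  have hQv : ∀ q ∈ Q, q.2.1 ≠ 0 := by
    intro q hq
    have : V ≤ q.2.1 := hq.1.2.1
    exact (hV.trans_le this).ne'
  have c1 : ContinuousOn (fun q : ℝ × ℝ × ℝ × ℝ × ℝ => (Bp q.1 q.2.1 q.2.2.1 q.2.2.2.1 q.2.2.2.2).x) Q := by
    simp only [Bp]
    refine ContinuousOn.div (by fun_prop) (by fun_prop) ?_
    intro q hq
    have := hQv q hq
    positivity
  have c2 : ContinuousOn (fun q : ℝ × ℝ × ℝ × ℝ × ℝ => (Bp q.1 q.2.1 q.2.2.1 q.2.2.2.1 q.2.2.2.2).y) Q := by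
    simp only [Bp]
    refine ContinuousOn.div (by fun_prop) (by fun_prop) ?_
    intro q hq
    have := hQv q hq
    positivity
  have c3 : ContinuousOn (fun q : ℝ × ℝ × ℝ × ℝ × ℝ => (Bp q.1 q.2.1 q.2.2.1 q.2.2.2.1 q.2.2.2.2).c) Q := by
    simp only [Bp]
    refine ContinuousOn.div (by fun_prop) (by fun_prop) ?_
    intro q hq
    have := hQv q hq
    positivity
  have c4 : ContinuousOn (fun q : ℝ × ℝ × ℝ × ℝ × ℝ => (Bp q.1 q.2.1 q.2.2.1 q.2.2.2.1 q.2.2.2.2).z) Q := by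
    simp only [Bp]
    refine ContinuousOn.div (by fun_prop) (by fun_prop) ?_
    intro q hq
    have := hQv q hq
    positivity
  have c5 : ContinuousOn (fun q : ℝ × ℝ × ℝ × ℝ × ℝ => (Bp q.1 q.2.1 q.2.2.1 q.2.2.2.1 q.2.2.2.2).w) Q := by
    simp only [Bp]
    refine ContinuousOn.div (by fun_prop) (by fun_prop) ?_
    intro q hq
    have := hQv q hq
    positivity
  obtain ⟨N1, h1⟩ := hQc.exists_bound_of_continuousOn c1
  obtain ⟨N2, h2⟩ := hQc.exists_bound_of_continuousOn c2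
  obtain ⟨N3, h3⟩ := hQc.exists_bound_of_continuousOn c3
  obtain ⟨N4, h4⟩ := hQc.exists_bound_of_continuousOn c4
  obtain ⟨N5, h5⟩ := hQc.exists_bound_of_continuousOn c5
  refine ⟨max N1 (max N2 (max N3 (max N4 N5))), ?_⟩
  intro p v θ C S hp hv hA hB hx
  have hv0 : 0 < v := hV.trans_le hv
  rw [chA_Bp _ _ _ _ _ hv0.ne'] at hA
  rw [chB_Bp _ _ _ _ _ hv0.ne', hA] at hB
  have t1 : |θ| * |θ ^ 2 + a| = |b| := by
    rw [← hB]
    have : -θ ^ 3 - a * θ = -(θ * (θ ^ 2 + a)) := by ring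
    rw [this, abs_neg, abs_mul]
  have t2 : |θ| ≤ K := by
    by_contra hc
    push Not at hc
    have hq : θ ^ 2 = |θ| ^ 2 := (sq_abs θ).symm
    have hb := abs_nonneg b
    have h1 : 1 < |θ| := lt_of_le_of_lt hK1 hc
    have h2 : |θ| ≤ |θ| ^ 2 := by nlinarith
    have h3 : 1 + |b| < |θ ^ 2 + a| := by
      have h4 := neg_abs_le a
      refine lt_of_lt_of_le ?_ (le_abs_self _)
      rw [hq]
      linarith
    have h5 : |θ ^ 2 + a| ≤ |θ| * |θ ^ 2 + a| := by nlinarith [abs_nonneg (θ ^ 2 + a)]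
    linarith
  have t3 : C ^ 2 + S ^ 2 = 4 * a + 12 * θ ^ 2 := by linarith
  have t4 : θ ^ 2 ≤ K ^ 2 := by rw [← sq_abs θ]; exact pow_le_pow_left₀ (abs_nonneg θ) t2 2
  have t5 : C ^ 2 + S ^ 2 ≤ L := by
    have := le_abs_self a
    linarith
  have hL1 : 1 ≤ L := by linarith
  have t6 : |C| ≤ L := by
    rw [← sq_le_sq₀ (abs_nonneg C) (by linarith), sq_abs]
    nlinarith [sq_nonneg S]
  have t7 : |S| ≤ L := by
    rw [← sq_le_sq₀ (abs_nonneg S) (by linarith), sq_abs]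
    nlinarith [sq_nonneg C]
  have t8 : |θ| ≤ L := t2.trans hLK
  have t9 : v ≤ M := by
    have h6 : (Bp p v θ C S).x = (3 * θ + C) / (4 * v ^ 2) := rfl
    rw [h6, abs_div, abs_of_pos (by positivity : 0 < 4 * v ^ 2), le_div_iff₀ (by positivity)] at hx
    have h7 : |3 * θ + C| ≤ 4 * L := by
      refine (abs_add_le _ _).trans ?_
      rw [abs_mul, abs_of_pos (by norm_num : (0 : ℝ) < 3)]
      linarith
    by_contra hc
    push Not at hc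
    nlinarith
  have hmem : (p, v, θ, C, S) ∈ Q := by
    have a1 := abs_le.1 hp
    have a2 := abs_le.1 t8
    have a3 := abs_le.1 t6
    have a4 := abs_le.1 t7
    refine ⟨⟨?_, hv, a2.1, a3.1, a4.1⟩, ⟨?_, t9, a2.2, a3.2, a4.2⟩⟩
    · show (-1 : ℝ) ≤ p
      linarith [a1.1]
    · show p ≤ 1
      linarith [a1.2]
  have b1 := h1 _ hmem
  have b2 := h2 _ hmem
  have b3 := h3 _ hmem
  have b4 := h4 _ hmem
  have b5 := h5 _ hmem
  simp only [Real.norm_eq_abs] at b1 b2 b3 b4 b5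
  refine ⟨b1.trans (le_max_left _ _), b2.trans ?_, b3.trans ?_, b4.trans ?_, b5.trans ?_⟩
  · exact (le_max_left _ _).trans (le_max_right _ _)
  · exact ((le_max_left _ _).trans (le_max_right _ _)).trans (le_max_right _ _)
  · exact (((le_max_left _ _).trans (le_max_right _ _)).trans (le_max_right _ _)).trans (le_max_right _ _)
  · exact (((le_max_right _ _).trans (le_max_right _ _)).trans (le_max_right _ _)).trans (le_max_right _ _)

/-! ### The reduction -/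

theorem t_RDXn : S_PARn → S_RDXn := by
  intro hPAR P hP hP0 B₀ hB₀
  obtain ⟨hx₀, hA₀⟩ := hP0 B₀ hB₀
  have hPAR' : ∀ B : Tup ℤ, P B → ∃ p v θ C S : ℝ, 0 < v ∧ toR B = Bp p v θ C S := by
    intro B hB
    obtain ⟨hx, hA⟩ := hP0 B hB
    refine hPAR (toR B) ?_ ?_
    · simpa [toR] using hx
    · rw [chA_toR, chB_toR]; exact_mod_cast hA
  -- start
  obtain ⟨p₀, v₀, θ₀, C₀, S₀, hv₀, h₀⟩ := hPAR' B₀ hB₀
  obtain ⟨k₀, hk₀⟩ := exists_nat_ge |p₀|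
  obtain ⟨B₁, p₁, hB₁, hA₁, hC₁, hp₁, h₁⟩ := shift P hP k₀ B₀ p₀ v₀ θ₀ C₀ S₀ hv₀ hB₀ h₀ (by linarith)
  set W : Set (Tup ℤ) := {B | P B ∧ chA B = chA B₀ ∧ chB B = chB B₀ ∧ ∃ p v θ C S : ℝ, |p| ≤ 1 / 2 ∧ v₀ ≤ v ∧
    toR B = Bp p v θ C S} with hW
  have hne : W.Nonempty := ⟨B₁, hB₁, hA₁, hC₁, p₁, v₀, θ₀, C₀, S₀, hp₁, le_refl _, h₁⟩
  -- `W` is finite
  obtain ⟨N, hN⟩ := bddn ((chA B₀ : ℤ) : ℝ) ((chB B₀ : ℤ) : ℝ) v₀ hv₀
  obtain ⟨n, hn⟩ := exists_nat_ge N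
  have hfin : W.Finite := by
    have hI : (Set.Icc (-(n : ℤ)) n).Finite := Set.finite_Icc _ _
    refine ((hI.prod (hI.prod (hI.prod (hI.prod hI)))).image
      (fun q : ℤ × ℤ × ℤ × ℤ × ℤ => (⟨q.1, q.2.1, q.2.2.1, q.2.2.2.1, q.2.2.2.2⟩ : Tup ℤ))).subset ?_
    rintro B ⟨hB, hBA, hBB, p, v, θ, C, S, hp, hv, h⟩
    have hx := (hP0 B hB).1
    have hb := hN p v θ C S hp hv (by rw [← h, chA_toR, hBA]) (by rw [← h, chB_toR, hBB]) (by
      rw [← h]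
      show (1 : ℝ) ≤ |((B.x : ℤ) : ℝ)|
      rw [← Int.cast_abs]
      exact_mod_cast Int.one_le_abs hx)
    rw [← h] at hb
    have conv : ∀ m : ℤ, |(m : ℝ)| ≤ N → m ∈ Set.Icc (-(n : ℤ)) n := by
      intro m hm
      have h1 : |m| ≤ (n : ℤ) := by
        have : ((|m| : ℤ) : ℝ) ≤ n := by rw [Int.cast_abs]; exact hm.trans hn
        exact_mod_cast this
      exact abs_le.1 h1
    exact ⟨(B.x, B.y, B.c, B.z, B.w), ⟨conv _ hb.1, conv _ hb.2.1, conv _ hb.2.2.1, conv _ hb.2.2.2.1,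
      conv _ hb.2.2.2.2⟩, rfl⟩
  -- the height
  have hch : ∀ B : Tup ℤ, ∃ v : ℝ, P B → 0 < v ∧ ∃ p θ C S : ℝ, toR B = Bp p v θ C S := by
    intro B
    by_cases hB : P B
    · obtain ⟨p, v, θ, C, S, hv, h⟩ := hPAR' B hB
      exact ⟨v, fun _ => ⟨hv, p, θ, C, S, h⟩⟩
    · exact ⟨0, fun h => absurd h hB⟩
  choose f hf using hch
  have hfu : ∀ (B : Tup ℤ) (p v θ C S : ℝ), P B → 0 < v → toR B = Bp p v θ C S → f B = v := by
    intro B p v θ C S hB hv h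
    obtain ⟨hfB, p', θ', C', S', h'⟩ := hf B hB
    refine uniqn p' (f B) θ' C' S' p v θ C S hfB hv ?_ (h'.symm.trans h)
    rw [← h', chA_toR, chB_toR]
    exact_mod_cast (hP0 B hB).2
  obtain ⟨B, hBW, hmax⟩ := Set.exists_max_image W f hfin hne
  obtain ⟨hB, hBA, hBB, p, v, θ, C, S, hp, hv, h⟩ := hBW
  have hvp : 0 < v := hv₀.trans_le hv
  have hfB : f B = v := hfu B p v θ C S hB hvp h
  have hn2 : 1 / 2 ≤ p ^ 2 + v ^ 2 := by
    by_contra hc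
    push Not at hc
    have hnp : 0 < p ^ 2 + v ^ 2 := by positivity
    have h2 : toR (sw B) = Bp (-p / (2 * (p ^ 2 + v ^ 2))) (v / (2 * (p ^ 2 + v ^ 2))) θ
      (((p ^ 2 - v ^ 2) * C - 2 * p * v * S) / (p ^ 2 + v ^ 2))
      ((2 * p * v * C + (p ^ 2 - v ^ 2) * S) / (p ^ 2 + v ^ 2)) := by
      rw [toR_sw, h, Bp_sw _ _ _ _ _ hvp.ne']
    have hv' : v < v / (2 * (p ^ 2 + v ^ 2)) := by
      rw [lt_div_iff₀ (by positivity)]
      nlinarith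
    obtain ⟨k, hk⟩ := exists_nat_ge |-p / (2 * (p ^ 2 + v ^ 2))|
    obtain ⟨B', p', hB', hA', hC', hp', h'⟩ := shift P hP k (sw B) _ _ _ _ _ (by positivity) (hP B hB).2.2.2 h2
      (by linarith)
    have hf' : f B' = v / (2 * (p ^ 2 + v ^ 2)) := hfu B' _ _ _ _ _ hB' (by positivity) h'
    have hmem : B' ∈ W := ⟨hB', by rw [hA', chA_sw, hBA], by rw [hC', chB_sw, hBB], p', _, _, _, _, hp',
      hv.trans hv'.le, h'⟩
    have := hmax B' hmem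
    rw [hf', hfB] at this
    linarith
  rcases le_total 0 p with h0 | h0
  · exact ⟨B, hB, v, p, θ, C, S, ⟨h0, (abs_le.1 hp).2, hvp, hn2⟩, h⟩
  · refine ⟨rf B, (hP B hB).2.2.1, v, -p, θ, C, -S, ⟨by linarith, by linarith [(abs_le.1 hp).1], hvp, ?_⟩, ?_⟩
    · rw [neg_sq]; exact hn2
    · rw [toR_rf, h, Bp_rf _ _ _ _ _ hvp.ne']


end Pool.Agent.L0h28.AV
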